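import Pool.Agent.Lib.MP_4ec5c8_lc.Cpx

set_option autoImplicit false

namespace Pool.Agent.Results.MP_4ec5c8_lc.Coanalytic

open MeasureTheory Pool.Agent.Lib.MP_4ec5c8_lc

/-- A subset of a Polish space is coanalytic iff it is the set of parameters at which some Borel
family of countable Borel equivalence relations is `α`-amenable. -/
theorem result (e : ℕ × ℕ ≃ ℕ) (α : Ordinal.{0}) (hα : 1 ≤ α) (hα' : α < Ordinal.omega 1)
    (T : Type) [TopologicalSpace T] [PolishSpace T] [MeasurableSpace T] [BorelSpace T]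
    (A : Set T) :
    AnalyticSet Aᶜ ↔
      ∃ (X : Type) (_ : MeasurableSpace X) (_ : StandardBorelSpace X) (E : T → X → X → Prop),
        MeasurableSet {p : T × X × X | E p.1 p.2.1 p.2.2} ∧ (∀ t, IsCBER (E t)) ∧
          A = {t | IsAlphaAmenable e α (E t)} :=
  ⟨exists_family_eq e hα hα', fun ⟨_, _, _, _, h1, h2, h3⟩ => h3 ▸ family_analytic e hα hα' h1 h2⟩

end Pool.Agent.Results.MP_4ec5c8_lc.Coanalytic
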