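import Pool.Agent.Lib.MP_4ec5c8_lc.FiltC

set_option autoImplicit false

namespace Pool.Agent.Results.MP_4ec5c8_lc.FilterCriterion

open Filter MeasureTheory Pool.Agent.Lib.MP_4ec5c8_lc

/-- For a filter `F` containing the cofinite sets, `F`-amenability and `α`-amenability of
countable Borel equivalence relations coincide iff Borel sets `B n ⊆ [0, 1]` that avoid every point
for `F`-most `n` have measures with infimum `0`. -/
theorem result (e : ℕ × ℕ ≃ ℕ) (α : Ordinal.{0}) (hα : 1 ≤ α) (hα' : α < Ordinal.omega 1)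
    (F : Filter ℕ) (hF : F ≤ cofinite) :
    (∀ (X : Type) [MeasurableSpace X] [StandardBorelSpace X] (E : X → X → Prop), IsCBER E →
      (IsAmenableAlong E F ↔ IsAlphaAmenable e α E)) ↔
    ∀ B : ℕ → Set unitInterval, (∀ n, MeasurableSet (B n)) → (∀ t, ∀ᶠ n in F, t ∉ B n) →
      ⨅ n, volume (B n) = 0 :=
  filter_criterion e hα hα' hF

/-- Each `Fr_β` contains the cofinite sets and satisfies the condition. -/
theorem frechet (e : ℕ × ℕ ≃ ℕ) (β : Ordinal.{0}) (F : Filter ℕ) (h : IsFr e β F) :
    F ≤ cofinite ∧ ∀ B : ℕ → Set unitInterval, (∀ n, MeasurableSet (B n)) →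
      (∀ t, ∀ᶠ n in F, t ∉ B n) → ⨅ n, volume (B n) = 0 := by
  refine ⟨?_, fun B hB hF => by_contra fun h' => ?_⟩
  · have key : ∀ G : ℕ → Filter ℕ, fubini e cofinite G ≤ cofinite := fun G A hA =>
      mem_fubini.2 (mem_of_superset (((mem_cofinite.1 hA).image fun n => (e.symm n).1).compl_mem_cofinite)
        fun i hi => univ_mem' fun j => by_contra fun h => hi ⟨_, h, by simp⟩)
    cases h with
    | one => exact le_rfl
    | succ => exact key _
    | limit => exact key _
  · obtain ⟨O, h1, h2, h3⟩ := amplify B hB hF h'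
    obtain ⟨E, h4, h5, h6⟩ := exists_bad O h1 h2 h3
    exact h6 (amenable_of_isFr h4 h h5)

end Pool.Agent.Results.MP_4ec5c8_lc.FilterCriterion
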