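import Pool.Agent.Lib.MP_4ec5c8_lc.MeasB

set_option autoImplicit false

namespace Pool.Agent.Results.MP_4ec5c8_lc.MeasureAmenable

open MeasureTheory Pool.Agent.Lib.MP_4ec5c8_lc

/-- A countable Borel equivalence relation is `α`-amenable iff for every Borel probability measure
its restriction to some conull Borel set is `β`-amenable. -/
theorem result (e : ℕ × ℕ ≃ ℕ) (α β : Ordinal.{0}) (hα : 1 ≤ α) (hα' : α < Ordinal.omega 1)
    (hβ : 1 ≤ β) (hβ' : β < Ordinal.omega 1)
    (X : Type*) [MeasurableSpace X] [StandardBorelSpace X] (E : X → X → Prop) (hE : IsCBER E) :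
    IsAlphaAmenable e α E ↔ ∀ μ : Measure X, IsProbabilityMeasure μ →
      ∃ B : Set X, MeasurableSet B ∧ μ B = 1 ∧ IsAlphaAmenable e β fun x y : B => E x y :=
  meas_amenable e hα hα' hβ hβ' hE

end Pool.Agent.Results.MP_4ec5c8_lc.MeasureAmenable
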