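import Pool.Agent.Lib.MP_4ec5c8_lc.GapC

set_option autoImplicit false

namespace Pool.Agent.Results.MP_4ec5c8_lc.ZeroTwoLaw

open Filter Pool.Agent.Lib.MP_4ec5c8_lc

/-- A countable Borel equivalence relation generated by Borel maps `g m` is `α`-amenable iff, along
`Fr_β`, some Borel probability assignments stay at a distance below `2` with a gap that decays
subexponentially in the word length. -/
theorem result (e : ℕ × ℕ ≃ ℕ) (α β : Ordinal.{0}) (hα : 1 ≤ α) (hα' : α < Ordinal.omega 1)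
    (hβ : 1 ≤ β) (hβ' : β < Ordinal.omega 1)
    (X : Type*) [MeasurableSpace X] [StandardBorelSpace X] (E : X → X → Prop) (hE : IsCBER E)
    (g : ℕ → X → X) (hg : ∀ m, Measurable (g m))
    (hgE : ∀ x y, E x y ↔ ∃ w : List ℕ, w.foldr g x = y) :
    IsAlphaAmenable e α E ↔ ∃ F : Filter ℕ, IsFr e β F ∧ ∃ f : ℕ → X → X → ℝ,
      (∀ n, Measurable fun p : {p : X × X // E p.1 p.2} => f n p.1.1 p.1.2) ∧
      (∀ n x y, E x y → 0 ≤ f n x y) ∧ (∀ n x, HasSum (fun y : {y // E x y} => f n x y) 1) ∧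
      ∀ (x : X) (i : ℕ) (θ : ℝ), 0 < θ → ∃ c : ℝ, 0 < c ∧
        ∀ a b : List ℕ, (∀ m ∈ a ++ b, m < i) →
          ∀ᶠ n in F, ∑' w : {w // E (a.foldr g x) w},
            |f n (a.foldr g x) w - f n (b.foldr g x) w| ≤
              2 - c * Real.exp (-θ * (a ++ b).length) :=
  zero_two e hα hα' hβ hβ' hE hg hgE

/-- The case of a gap that is constant on each class. -/
theorem constant_gap (e : ℕ × ℕ ≃ ℕ) (α β : Ordinal.{0}) (hα : 1 ≤ α)
    (hα' : α < Ordinal.omega 1) (hβ : 1 ≤ β) (hβ' : β < Ordinal.omega 1)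
    (X : Type*) [MeasurableSpace X] [StandardBorelSpace X] (E : X → X → Prop) (hE : IsCBER E) :
    IsAlphaAmenable e α E ↔ ∃ F : Filter ℕ, IsFr e β F ∧ ∃ f : ℕ → X → X → ℝ,
      (∀ n, Measurable fun p : {p : X × X // E p.1 p.2} => f n p.1.1 p.1.2) ∧
      (∀ n x y, E x y → 0 ≤ f n x y) ∧ (∀ n x, HasSum (fun y : {y // E x y} => f n x y) 1) ∧
      ∀ x, ∃ c : ℝ, c < 2 ∧ ∀ y z, E x y → E x z →
        ∀ᶠ n in F, ∑' w : {w // E y w}, |f n y w - f n z w| ≤ c :=
  const_gap e hα hα' hβ hβ' hE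

/-- An exponentially decaying gap is no condition when the maps have boundedly many local
inverses, as for group actions. -/
theorem exponential_gap
    (X : Type*) [MeasurableSpace X] [StandardBorelSpace X] (E : X → X → Prop) (hE : IsCBER E)
    (g : ℕ → X → X) (hg : ∀ m, Measurable (g m)) (hgE : ∀ m x, E x (g m x))
    (hinv : ∀ m, ∃ j, ∀ x, ∃ m' < j, g m' (g m x) = x) :
    ∃ f : X → X → ℝ, (Measurable fun p : {p : X × X // E p.1 p.2} => f p.1.1 p.1.2) ∧
      (∀ x y, E x y → 0 ≤ f x y) ∧ (∀ x, HasSum (fun y : {y // E x y} => f x y) 1) ∧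
      ∀ i : ℕ, ∃ θ : ℝ, ∀ (x : X) (a b : List ℕ), (∀ m ∈ a ++ b, m < i) →
        ∑' w : {w // E (a.foldr g x) w}, |f (a.foldr g x) w - f (b.foldr g x) w| ≤
          2 - Real.exp (-θ * (a ++ b).length) :=
  let ⟨f, h, h'⟩ := exp_gap hE hg hgE hinv
  ⟨f, h.meas, h.nonneg, h.sum, h'⟩

/-- Distance below `2` pair by pair is no condition: it holds for every relation. -/
theorem pair_by_pair
    (X : Type*) [MeasurableSpace X] [StandardBorelSpace X] (E : X → X → Prop) (hE : IsCBER E) :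
    ∃ f : X → X → ℝ, (Measurable fun p : {p : X × X // E p.1 p.2} => f p.1.1 p.1.2) ∧
      (∀ x y, E x y → 0 ≤ f x y) ∧ (∀ x, HasSum (fun y : {y // E x y} => f x y) 1) ∧
      ∀ y z, E y z → ∑' w : {w // E y w}, |f y w - f z w| < 2 :=
  let ⟨f, h, h'⟩ := pair_gap hE
  ⟨f, h.meas, h.nonneg, h.sum, h'⟩

end Pool.Agent.Results.MP_4ec5c8_lc.ZeroTwoLaw
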